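import Pool.Agent.Helper81.OWN.AllDim

set_option autoImplicit false
open MeasureTheory

/-!
# The Liu-Wang conjecture fails in every dimension at least two

For every `d ≥ 2` we give a compactly supported, real valued window `g` and two full rank
lattices `T`, `S` such that the Gabor functions `g(x - t) exp(2 pi i <s, x>)` form a Hilbert
basis of `L^2(R^d)`, while `|g|` is not almost everywhere a constant multiple of the
indicator of any set.
-/

namespace Pool.Agent.Results.MP_5691a6_an.AllDimensions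

/-- The functions `u i` represent the elements of a Hilbert basis of `L²(μ)` indexed by `ι`. -/
def IsHilbertBasisL2 {α ι : Type} [MeasurableSpace α] (μ : Measure α) (u : ι → α → ℂ) : Prop :=
  ∃ b : HilbertBasis ι ℂ (Lp ℂ 2 μ), ∀ i, ⇑(b i) =ᵐ[μ] u i

/-- The Gabor function `x ↦ g(x - t) exp(2πi ⟨s, x⟩)`. -/
noncomputable def gabor {d : ℕ} (g : EuclideanSpace ℝ (Fin d) → ℂ)
    (t s x : EuclideanSpace ℝ (Fin d)) : ℂ :=
  g (x - t) * Complex.exp (2 * Real.pi * Complex.I * ((∑ i, s i * x i : ℝ) : ℂ))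

/-- The Gabor functions with `t ∈ T`, `s ∈ S`, indexed by `T × S`, form a Hilbert basis of
`L²(ℝ^d)` (Lebesgue measure). -/
def IsGaborBasis {d : ℕ} (g : EuclideanSpace ℝ (Fin d) → ℂ)
    (T S : Set (EuclideanSpace ℝ (Fin d))) : Prop :=
  IsHilbertBasisL2 volume (fun p : T × S => gabor g p.1 p.2)

/-- Square integrable with compact support. -/
def CompactlySupportedL2 {d : ℕ} (g : EuclideanSpace ℝ (Fin d) → ℂ) : Prop :=
  MemLp g 2 volume ∧ HasCompactSupport g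

/-- `|g| = c · 1_Ω` almost everywhere, for some set `Ω` (no measurability asked) and some real
constant `c`. -/
def AbsIsMultipleOfIndicator {d : ℕ} (g : EuclideanSpace ℝ (Fin d) → ℂ) : Prop :=
  ∃ (Ω : Set (EuclideanSpace ℝ (Fin d))) (c : ℝ),
    ∀ᵐ x ∂volume, ‖g x‖ = c * Ω.indicator (fun _ => (1 : ℝ)) x

/-- The lattice `2ℤ × ℤ × ⋯ × ℤ`. -/
def T (d : ℕ) : Set (EuclideanSpace ℝ (Fin d)) :=
  {t | ∀ i : Fin d, ∃ k : ℤ, t i = if (i : ℕ) = 0 then 2 * (k : ℝ) else (k : ℝ)}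

/-- The lattice `ℤ × (1/2)ℤ × ℤ × ⋯ × ℤ`. -/
def S (d : ℕ) : Set (EuclideanSpace ℝ (Fin d)) :=
  {s | ∀ i : Fin d, ∃ k : ℤ, s i = if (i : ℕ) = 1 then (k : ℝ) / 2 else (k : ℝ)}

theorem result (d : ℕ) (hd : 2 ≤ d) :
    ∃ g : EuclideanSpace ℝ (Fin d) → ℂ, CompactlySupportedL2 g ∧ (∀ x, (g x).im = 0) ∧
      IsGaborBasis g (T d) (S d) ∧ ¬ AbsIsMultipleOfIndicator g := by
  obtain ⟨g, T', S', b, h1, h2, h3, rfl, rfl, h4, h5⟩ := Pool.Agent.Helper81.OWN.main d hd
  refine ⟨g, ⟨h1, h2⟩, h3, ⟨b, ?_⟩, fun ⟨Ω, c, h⟩ => h5 Ω c h⟩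
  rintro ⟨t, s⟩
  refine (h4 t s).trans (Filter.Eventually.of_forall fun x => ?_)
  have e : (∑ i, (s : EuclideanSpace ℝ (Fin d)) i * x i : ℝ) =
      @inner ℝ _ _ (s : EuclideanSpace ℝ (Fin d)) x := by
    simp only [PiLp.inner_apply, RCLike.inner_apply, conj_trivial]
    exact Finset.sum_congr rfl (fun i _ => mul_comm _ _)
  simp only [gabor, e]

end Pool.Agent.Results.MP_5691a6_an.AllDimensions
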